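import Pool.Agent.LibM73.AsmY

/-!
# Moser's problem: the squares of side `1/(2n+1)`, `n ≥ 1`, pack perfectly into a rectangle

The least excess area is `0`, and it is attained.

Outline of the proof.  The rectangle has the sides `1/3` and `3π²/8 - 3`; the libraries scale
everything by `2`, so that the squares have the sides `sd n = 1/(n+1/2)`.

* `LibM73D` holds an explicit packing of the squares `1, …, 268530468` as a program in 304 parts
  (rows of squares; the free region is a list of rectangles, combs and holes).  `LibM73` is the
  machine which runs these programs in integer interval arithmetic and bounds the total width of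
  the left-over pieces of each thickness, and the proof that it is sound.  The kernel runs it.
* `LibMoserT` shows that from such a state the greedy rule (every later square goes into the
  smallest piece that can take it, in full rows) never gets stuck: a ledger of potentials, again
  with tables checked in the kernel, and a limit argument which gives the perfect packing.
* `LibMoserF` and `LibMoser5` hold the geometry of rows, combs and rectangles.
* The lower bound (no rectangle of smaller area) is the comparison of areas, for arbitrary
  isometric copies.
-/

namespace Pool.Agent.Results.MP_8ea1de_co.PerfectPacking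

/-- the plane -/
abbrev Plane := EuclideanSpace ℝ (Fin 2)

/-- the closed rectangle with side lengths `W` and `H` -/
def Rect (W H : ℝ) : Set Plane := {x | 0 ≤ x 0 ∧ x 0 ≤ W ∧ 0 ≤ x 1 ∧ x 1 ≤ H}

/-- the closed square of side `1/(2n+1)` -/
def Q (n : ℕ) : Set Plane := Rect (1 / (2 * (n : ℝ) + 1)) (1 / (2 * (n : ℝ) + 1))

/-- the `W × H` rectangle contains isometric copies of all the squares `Q n`, `n ≥ 1`, whose
interiors are pairwise disjoint -/
def Packs (W H : ℝ) : Prop := ∃ f : ℕ → Plane ≃ᵢ Plane,
  (∀ n, 1 ≤ n → f n '' Q n ⊆ Rect W H) ∧
  ∀ m n, 1 ≤ m → 1 ≤ n → m ≠ n → Disjoint (interior (f m '' Q m)) (interior (f n '' Q n))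

/-- the least excess area is `0`, and it is attained: there is a perfect packing -/
theorem result : IsLeast {ε : ℝ | ∃ W H : ℝ, 0 < W ∧ 0 < H ∧ Packs W H ∧
    ε = W * H - (Real.pi ^ 2 / 8 - 1)} 0 := by
  have h := LibM73D.X.main
  constructor
  · obtain ⟨W, H, hW, hH, hA, hP⟩ := h.1
    exact ⟨W, H, hW, hH, hP, by rw [hA]; ring⟩
  · rintro ε ⟨W, H, hW, hH, hP, rfl⟩
    have h1 := h.2 ⟨W, H, hW, hH, rfl, hP⟩
    linarith

end Pool.Agent.Results.MP_8ea1de_co.PerfectPacking
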