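import Pool.Agent.LibMoser5.Main

/-!
# The squares of side `1/(2n+1)`, `n ≥ N`, pack perfectly into every rectangle of the right area and bounded shape

Moser's problem: the squares `Q_n` of side `1/(2n+1)`.  For every `C` and all large `N` the squares `Q_n`, `n ≥ N`,
have a perfect packing into every `W × H` rectangle with `W ≤ H ≤ C W` whose area is the total area of these squares.
-/

namespace Pool.Agent.Results.MP_8ea1de_co.PerfectTail

/-- the closed square of side `1/(2n+1)` with lower left corner `p` -/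
def Q (n : ℕ) (p : ℝ × ℝ) : Set (ℝ × ℝ) :=
  Set.Icc p.1 (p.1 + 1 / (2 * (n : ℝ) + 1)) ×ˢ Set.Icc p.2 (p.2 + 1 / (2 * (n : ℝ) + 1))

theorem result (C : ℝ) : ∃ N₀ : ℕ, ∀ N ≥ N₀, ∀ W H : ℝ, 0 < W → W ≤ H → H ≤ C * W →
    W * H = ∑' n : ℕ, (1 / (2 * ((N + n : ℕ) : ℝ) + 1)) ^ 2 →
    ∃ p : ℕ → ℝ × ℝ, (∀ n ≥ N, Q n (p n) ⊆ Set.Icc 0 W ×ˢ Set.Icc 0 H) ∧
      ∀ m ≥ N, ∀ n ≥ N, m ≠ n → Disjoint (interior (Q m (p m))) (interior (Q n (p n))) := by
  obtain ⟨N₀, hN₀⟩ := LibMoser5.pack_scaled (max 2 C) (le_max_left _ _)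
  refine ⟨N₀, fun N hN W H hW hWH1 hWH2 hWH => ?_⟩
  have hsd : ∀ n : ℕ, LibMoser5.sd n = 2 * (1 / (2 * (n : ℝ) + 1)) := by
    intro n
    have : (0 : ℝ) < 2 * (n : ℝ) + 1 := by positivity
    unfold LibMoser5.sd
    field_simp
  obtain ⟨p, hp1, hp2⟩ := hN₀ N hN (2 * W) (2 * H) (by linarith) (by linarith)
    (by
      have : C * W ≤ max 2 C * W := mul_le_mul_of_nonneg_right (le_max_right _ _) hW.le
      linarith)
    (by
      have : ∀ n : ℕ, LibMoser5.sd (N + n) ^ 2 = 4 * (1 / (2 * ((N + n : ℕ) : ℝ) + 1)) ^ 2 := by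
        intro n
        rw [hsd]
        ring
      simp_rw [this]
      rw [tsum_mul_left, ← hWH]
      ring)
  refine ⟨fun n => ((p n).1 / 2, (p n).2 / 2), fun n hn => ?_, fun m hm n hn hmn => ?_⟩
  · have h := hp1 n hn
    obtain ⟨_, _, h3, h4, h5, h6⟩ := h
    simp only [LibMoser5.sq, hsd] at h3 h4 h5 h6
    intro x hx
    simp only [Q, Set.mem_prod, Set.mem_Icc] at hx ⊢
    refine ⟨⟨?_, ?_⟩, ?_, ?_⟩ <;> linarith [hx.1.1, hx.1.2, hx.2.1, hx.2.2]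
  · have h := hp2 m n hm hn hmn
    simp only [Q, interior_prod_eq, interior_Icc]
    rw [Set.disjoint_left]
    rintro x ⟨⟨hx1, hx2⟩, hx3, hx4⟩ ⟨⟨hy1, hy2⟩, hy3, hy4⟩
    simp only [LibMoser5.Box.Sep, LibMoser5.sq, hsd] at h
    rcases h with h | h | h | h <;> linarith

end Pool.Agent.Results.MP_8ea1de_co.PerfectTail
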